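import Pool.Agent.H630R2.LR.M1

/-!
# From protocols to colourings (the transcript of the pair `(v, v)` is a proper colouring)
-/

set_option autoImplicit false

namespace Pool.Agent.Q274.LR

open Finset Pool.Agent.H630R2.LR

section transcripts

variable {X Y : Type*} (owner : List Bool → Bool) (a : List Bool → X → Bool)
  (b : List Bool → Y → Bool)

/-- the transcript after `k` bits -/
def tr (x : X) (y : Y) (k : ℕ) : List Bool :=
  Nat.iterate (fun t : List Bool => t ++ [if owner t then a t x else b t y]) k []

theorem tr_succ (x : X) (y : Y) (k : ℕ) : tr owner a b x y (k + 1) =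
    tr owner a b x y k ++ [if owner (tr owner a b x y k) then a (tr owner a b x y k) x
      else b (tr owner a b x y k) y] := by
  unfold tr
  rw [Function.iterate_succ_apply']

theorem tr_length (x : X) (y : Y) (k : ℕ) : (tr owner a b x y k).length = k := by
  induction k with
  | zero => rfl
  | succ k ih => rw [tr_succ, List.length_append, ih]; rfl

theorem tr_take (x : X) (y : Y) (k m : ℕ) :
    (tr owner a b x y (k + m)).take k = tr owner a b x y k := by
  induction m with
  | zero => rw [Nat.add_zero]; exact List.take_of_length_le (tr_length owner a b x y k).le
  | succ m ih =>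
    rw [← Nat.add_assoc, tr_succ, List.take_append_of_le_length, ih]
    rw [tr_length]
    omega

/-- the rectangle property -/
theorem tr_rect (x x' : X) (y y' : Y) (c : ℕ)
    (h : tr owner a b x y c = tr owner a b x' y' c) :
    tr owner a b x y' c = tr owner a b x y c := by
  have hk : ∀ k ≤ c, tr owner a b x y k = tr owner a b x' y' k := by
    intro k hk
    obtain ⟨m, rfl⟩ := Nat.exists_eq_add_of_le hk
    rw [← tr_take owner a b x y k m, h, tr_take]
  have key : ∀ k ≤ c, tr owner a b x y' k = tr owner a b x y k := by
    intro k
    induction k with
    | zero => intro _; rfl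
    | succ k ih =>
      intro hkc
      have h1 := ih (by omega)
      have h2 := hk k (by omega)
      have h3 := hk (k + 1) hkc
      have e1 := tr_succ owner a b x y' k
      rw [h1] at e1
      by_cases ho : owner (tr owner a b x y k) = true
      · rw [e1, tr_succ owner a b x y k]
        simp only [ho, if_true]
      · rw [e1, h3, tr_succ owner a b x' y' k, ← h2]
        simp only [ho, Bool.false_eq_true, if_false]
  exact key c le_rfl

end transcripts

/-- A protocol for adjacency with `c` bits gives a proper colouring with `2 ^ c` colours. -/
theorem colorable_of_proto {V : Type*} (G : SimpleGraph V) {F : V → V → Bool} {c : ℕ}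
    (hF : ∀ u v, F u v = true ↔ G.Adj u v) (h : Proto F c) : G.Colorable (2 ^ c) := by
  obtain ⟨owner, a, b, out, hout⟩ := h
  have hcol : G.Coloring (List.Vector Bool c) := by
    refine SimpleGraph.Coloring.mk (fun v => ⟨tr owner a b v v c, tr_length owner a b v v c⟩) ?_
    intro u v huv heq
    have h1 : tr owner a b u u c = tr owner a b v v c := congrArg Subtype.val heq
    have h2 := tr_rect owner a b u v u v c h1
    have h3 := hout u v
    have h4 := hout u u
    change out (tr owner a b u v c) = _ at h3
    change out (tr owner a b u u c) = _ at h4
    rw [h2, h4] at h3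
    have h5 := (hF u v).2 huv
    rw [← h3, hF] at h5
    exact G.loopless.irrefl u h5
  have := hcol.colorable
  rw [card_vector, Fintype.card_bool] at this
  exact this

end Pool.Agent.Q274.LR
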