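import Pool.Agent.Q274.LR.NW

/-!
# Matrices with large monochromatic rectangles: the protocol in terms of the rank
-/

set_option autoImplicit false

namespace Pool.Agent.Q274.LR

open Finset Module Pool.Agent.H630R2.LR

variable {X Y : Type}

/-- few columns determine the rows -/
theorem exists_cols [Fintype X] [Fintype Y] (F : X → Y → Bool) :
    ∃ Y0 : Finset Y, Y0.card ≤ (comm F).rank ∧
      ∀ x x', (∀ y ∈ Y0, F x y = F x' y) → ∀ y, F x y = F x' y := by
  classical
  obtain ⟨b, hb, hspan, hli⟩ := exists_linearIndependent ℝ (Set.range (comm F).col)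
  have hbf : b.Finite := (Set.finite_range _).subset hb
  have : Fintype b := hbf.fintype
  have hcard : Fintype.card b = (comm F).rank := by
    rw [Matrix.rank_eq_finrank_span_cols, ← hspan]
    exact (finrank_span_set_eq_card hli).symm ▸ (by rw [Set.toFinset_card])
  choose e he using fun f : b => hb f.2
  refine ⟨univ.image e, ?_, ?_⟩
  · exact card_image_le.trans (by rw [card_univ, hcard])
  · intro x x' h y
    -- the functional
    let φ : (X → ℝ) →ₗ[ℝ] ℝ :=
      LinearMap.proj (R := ℝ) (φ := fun _ : X => ℝ) x - LinearMap.proj (R := ℝ) (φ := fun _ : X => ℝ) x'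
    have hz : Submodule.span ℝ b ≤ LinearMap.ker φ := by
      rw [Submodule.span_le]
      intro f hf
      have h1 := he ⟨f, hf⟩
      have h2 := h (e ⟨f, hf⟩) (mem_image_of_mem _ (mem_univ _))
      rw [SetLike.mem_coe, LinearMap.mem_ker]
      show f x - f x' = 0
      have h3 : f = (comm F).col (e ⟨f, hf⟩) := h1.symm
      rw [h3]
      show (if F x (e ⟨f, hf⟩) then (1 : ℝ) else 0) - (if F x' (e ⟨f, hf⟩) then (1 : ℝ) else 0) = 0
      rw [h2, sub_self]
    have hy : (comm F).col y ∈ Submodule.span ℝ b := by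
      rw [hspan]
      exact Submodule.subset_span ⟨y, rfl⟩
    have h4 := hz hy
    rw [LinearMap.mem_ker] at h4
    change (if F x y then (1 : ℝ) else 0) - (if F x' y then (1 : ℝ) else 0) = 0 at h4
    cases h5 : F x y <;> cases h6 : F x' y <;> simp [h5, h6] at h4 ⊢

/-- few rows determine the columns -/
theorem exists_rows [Fintype X] [Fintype Y] (F : X → Y → Bool) :
    ∃ X0 : Finset X, X0.card ≤ (comm F).rank ∧
      ∀ y y', (∀ x ∈ X0, F x y = F x y') → ∀ x, F x y = F x y' := by
  obtain ⟨X0, h1, h2⟩ := exists_cols (fun y x => F x y)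
  refine ⟨X0, ?_, h2⟩
  have e : comm (fun y x => F x y) = (comm F).transpose := rfl
  rw [e, Matrix.rank_transpose] at h1
  exact h1

theorem exists_rep {Q : Type*} [Fintype X] [Fintype Q] [DecidableEq X] (σ : X → Q) :
    ∃ ρ : X → X, (∀ x, σ (ρ x) = σ x) ∧ (univ.image ρ).card ≤ Fintype.card Q := by
  classical
  rcases isEmpty_or_nonempty X with hX | ⟨⟨x0⟩⟩
  · exact ⟨id, fun _ => rfl, by simp⟩
  let g : Q → X := fun q => if h : ∃ x, σ x = q then h.choose else x0
  refine ⟨fun x => g (σ x), fun x => ?_, ?_⟩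
  · have h : ∃ x', σ x' = σ x := ⟨x, rfl⟩
    have e : g (σ x) = h.choose := dif_pos h
    show σ (g (σ x)) = σ x
    rw [e]
    exact h.choose_spec
  · have : (univ.image fun x => g (σ x)) ⊆ univ.image g := by
      intro z hz
      obtain ⟨x, -, rfl⟩ := mem_image.1 hz
      exact mem_image_of_mem _ (mem_univ _)
    exact (card_le_card this).trans (card_image_le.trans (by rw [card_univ]))

theorem R_univ_le [Fintype X] [Fintype Y] [DecidableEq Y] (F : X → Y → Bool) :
    R F univ univ ≤ (comm F).rank + 1 := by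
  unfold R W
  have h1 : Submodule.span ℝ (insert (one (univ : Finset Y)) ((row F univ) '' ((univ : Finset X) : Set X)))
      = Submodule.span ℝ {one (univ : Finset Y)} ⊔ Submodule.span ℝ (Set.range (comm F).row) := by
    rw [Submodule.span_insert]
    congr 2
    ext f
    constructor
    · rintro ⟨x, -, rfl⟩
      refine ⟨x, ?_⟩
      funext y
      simp [row, Pool.Agent.H630R2.LR.comm, Matrix.row]
    · rintro ⟨x, rfl⟩
      refine ⟨x, by simp, ?_⟩
      funext y
      simp [row, Pool.Agent.H630R2.LR.comm, Matrix.row]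
  rw [h1]
  refine (Submodule.finrank_add_le_finrank_add_finrank _ _).trans ?_
  have h2 := finrank_span_le_card (R := ℝ) ({one (univ : Finset Y)} : Set (Y → ℝ))
  simp only [Set.toFinset_singleton, Finset.card_singleton] at h2
  have h3 : finrank ℝ (Submodule.span ℝ (Set.range (comm F).row)) = (comm F).rank :=
    (Matrix.rank_eq_finrank_span_row _).symm
  omega

theorem stp_pow (m r : ℕ) : stp m (2 ^ r) ≤ m * r + 1 := by
  unfold stp
  rw [if_neg (by positivity)]
  have h : (m : ℝ) * Real.log ((2 ^ r : ℕ) : ℝ) ≤ ((m * r : ℕ) : ℝ) := by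
    push_cast
    rw [Real.log_pow]
    have h1 : Real.log 2 ≤ 1 := by
      have := Real.log_two_lt_d9
      linarith
    have h2 : (r : ℝ) * Real.log 2 ≤ r * 1 := mul_le_mul_of_nonneg_left h1 (Nat.cast_nonneg _)
    have h3 := mul_le_mul_of_nonneg_left h2 (Nat.cast_nonneg m : (0 : ℝ) ≤ m)
    linarith
  have := Nat.floor_le_floor h
  rw [Nat.floor_natCast] at this
  omega

/-- The protocol. -/
theorem proto_of_rect [Fintype X] [Fintype Y] (F : X → Y → Bool) (m : ℕ) (hR : RectProp F m) :
    Proto F (1 + 2 * Nat.clog 2 (2 * m * (comm F).rank + 3) * Nat.clog 2 ((comm F).rank + 1)) := by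
  classical
  set r := (comm F).rank with hr
  obtain ⟨Y0, hY0, hY⟩ := exists_cols F
  obtain ⟨X0, hX0, hX⟩ := exists_rows F
  obtain ⟨ρ, hρ, hρc⟩ := exists_rep (fun (x : X) (y : Y0) => F x y)
  obtain ⟨τ, hτ, hτc⟩ := exists_rep (fun (y : Y) (x : X0) => F x y)
  have hρ' : ∀ x y, F (ρ x) y = F x y := by
    intro x y
    refine hY _ _ (fun z hz => ?_) y
    exact congrFun (hρ x) ⟨z, hz⟩
  have hτ' : ∀ x y, F x (τ y) = F x y := by
    intro x y
    refine hX _ _ (fun z hz => ?_) x
    exact congrFun (hτ y) ⟨z, hz⟩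
  have hc1 : (univ.image ρ).card ≤ 2 ^ r := by
    refine hρc.trans ?_
    rw [Fintype.card_fun, Fintype.card_bool, Fintype.card_coe]
    exact Nat.pow_le_pow_right (by norm_num) hY0
  have hc2 : (univ.image τ).card ≤ 2 ^ r := by
    refine hτc.trans ?_
    rw [Fintype.card_fun, Fintype.card_bool, Fintype.card_coe]
    exact Nat.pow_le_pow_right (by norm_num) hX0
  have hL : stp m (2 ^ r) + stp m (2 ^ r) + 1 ≤ 2 ^ Nat.clog 2 (2 * m * r + 3) := by
    have h1 := stp_pow m r
    have h2 := Nat.le_pow_clog (b := 2) (by norm_num) (2 * m * r + 3)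
    have e : 2 * m * r = m * r + m * r := by ring
    omega
  have hk : R F (univ.image ρ) (univ.image τ) ≤ 2 ^ Nat.clog 2 (r + 1) := by
    refine (R_mono F (subset_univ _) (subset_univ _)).trans ((R_univ_le F).trans ?_)
    exact Nat.le_pow_clog (by norm_num) _
  obtain ⟨F', h1, h2⟩ := main_rec F m (2 ^ r) (2 ^ r) _ hR hL _ (univ.image ρ) (univ.image τ) hc1 hc2 hk
  have h3 := h1.comap ρ τ
  have e : (fun x y => F' (ρ x) (τ y)) = F := by
    funext x y
    rw [h2 (ρ x) (mem_image_of_mem _ (mem_univ _)) (τ y) (mem_image_of_mem _ (mem_univ _)),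
      hρ', hτ']
  rw [e] at h3
  exact h3

end Pool.Agent.Q274.LR
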