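import Pool.Agent.H630R2.LR.M1

/-!
# Monochromatic rectangles and deterministic protocols (after Nisan and Wigderson)
-/

set_option autoImplicit false

namespace Pool.Agent.Q274.LR

open Finset Module Pool.Agent.H630R2.LR

variable {X Y : Type}

/-- Every rectangle contains a monochromatic rectangle with at least `1 / m` of the rows and
at least `1 / m` of the columns. -/
def RectProp (F : X → Y → Bool) (m : ℕ) : Prop :=
  ∀ (S : Finset X) (T : Finset Y), S.Nonempty → T.Nonempty →
    ∃ A ⊆ S, ∃ B ⊆ T, S.card ≤ m * A.card ∧ T.card ≤ m * B.card ∧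
      ∃ v, ∀ a ∈ A, ∀ b ∈ B, F a b = v

/-- the row `x`, restricted to the columns in `T` -/
noncomputable def row [DecidableEq Y] (F : X → Y → Bool) (T : Finset Y) (x : X) : Y → ℝ :=
  fun y => if y ∈ T then (if F x y then 1 else 0) else 0

/-- the constant function on `T` -/
noncomputable def one [DecidableEq Y] (T : Finset Y) : Y → ℝ := fun y => if y ∈ T then 1 else 0

/-- the restriction to `T` -/
noncomputable def mask [DecidableEq Y] (T : Finset Y) : (Y → ℝ) →ₗ[ℝ] (Y → ℝ) where
  toFun f := fun y => if y ∈ T then f y else 0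
  map_add' f g := by
    funext y
    by_cases h : y ∈ T <;> simp [h]
  map_smul' c f := by
    funext y
    by_cases h : y ∈ T <;> simp [h]

variable [DecidableEq Y]

noncomputable def W (F : X → Y → Bool) (S : Finset X) (T : Finset Y) : Submodule ℝ (Y → ℝ) :=
  Submodule.span ℝ (insert (one T) ((row F T) '' (S : Set X)))

noncomputable def R (F : X → Y → Bool) (S : Finset X) (T : Finset Y) : ℕ := finrank ℝ (W F S T)

theorem mask_row (F : X → Y → Bool) {B T : Finset Y} (h : B ⊆ T) (x : X) :
    mask B (row F T x) = row F B x := by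
  funext y
  by_cases h1 : y ∈ B
  · simp [mask, row, h1, h h1]
  · simp [mask, row, h1]

theorem mask_one {B T : Finset Y} (h : B ⊆ T) : mask B (one T) = one B := by
  funext y
  by_cases h1 : y ∈ B
  · simp [mask, one, h1, h h1]
  · simp [mask, one, h1]

theorem W_map (F : X → Y → Bool) (S : Finset X) {B T : Finset Y} (h : B ⊆ T) :
    (W F S T).map (mask B) = W F S B := by
  unfold W
  rw [Submodule.map_span, Set.image_insert_eq, mask_one h, Set.image_image]
  simp only [mask_row F h]

theorem W_mono (F : X → Y → Bool) {A S : Finset X} (h : A ⊆ S) (T : Finset Y) :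
    W F A T ≤ W F S T := by
  unfold W
  refine Submodule.span_mono (Set.insert_subset_insert (Set.image_mono ?_))
  exact_mod_cast h

variable [Fintype Y]

theorem R_mono (F : X → Y → Bool) {A S : Finset X} (h : A ⊆ S) {B T : Finset Y} (h' : B ⊆ T) :
    R F A B ≤ R F S T := by
  unfold R
  calc finrank ℝ (W F A B) = finrank ℝ ((W F A T).map (mask B)) := by rw [W_map F A h']
    _ ≤ finrank ℝ (W F A T) := Submodule.finrank_map_le _ _
    _ ≤ finrank ℝ (W F S T) := Submodule.finrank_mono (W_mono F h T)

/-- the rank inequality -/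
theorem R_add (F : X → Y → Bool) {A S : Finset X} (hA : A ⊆ S) {B T : Finset Y} (hB : B ⊆ T)
    (v : Bool) (hv : ∀ a ∈ A, ∀ b ∈ B, F a b = v) :
    R F A T + R F S B ≤ R F S T + 1 := by
  classical
  set c : ℝ := if v then 1 else 0 with hc
  set U : Submodule ℝ (Y → ℝ) :=
    Submodule.span ℝ ((fun a => row F T a - c • one T) '' (A : Set X)) with hU
  -- `U` is in the kernel
  have h1 : U ≤ LinearMap.ker (mask B) := by
    rw [hU, Submodule.span_le]
    rintro _ ⟨a, ha, rfl⟩
    rw [SetLike.mem_coe, LinearMap.mem_ker, map_sub, map_smul, mask_row F hB, mask_one hB]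
    funext y
    by_cases hy : y ∈ B
    · have hFv : F a y = v := hv a (by exact_mod_cast ha) y hy
      simp only [row, one, hy, if_true, Pi.sub_apply, Pi.smul_apply, smul_eq_mul, mul_one,
        Pi.zero_apply, hFv, hc, sub_self]
    · simp [row, one, hy]
  have hone : one T ∈ W F S T := Submodule.subset_span (Set.mem_insert _ _)
  have h2 : U ≤ W F S T := by
    rw [hU, Submodule.span_le]
    rintro _ ⟨a, ha, rfl⟩
    refine Submodule.sub_mem _ (Submodule.subset_span (Set.mem_insert_of_mem _ ⟨a, ?_, rfl⟩))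
      (Submodule.smul_mem _ _ hone)
    exact_mod_cast hA ha
  have h3 : W F A T ≤ U ⊔ Submodule.span ℝ {one T} := by
    unfold W
    rw [Submodule.span_le]
    have ho : one T ∈ U ⊔ Submodule.span ℝ {one T} :=
      Submodule.mem_sup_right (Submodule.mem_span_singleton_self _)
    rintro f (rfl | ⟨a, ha, rfl⟩)
    · exact ho
    · have e : row F T a = (row F T a - c • one T) + c • one T := by abel
      rw [SetLike.mem_coe, e]
      refine Submodule.add_mem _ (Submodule.mem_sup_left (Submodule.subset_span ⟨a, ha, rfl⟩))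
        (Submodule.smul_mem _ _ ho)
  have h4 : R F A T ≤ finrank ℝ U + 1 := by
    calc R F A T ≤ finrank ℝ ↥(U ⊔ Submodule.span ℝ {one T}) := Submodule.finrank_mono h3
      _ ≤ finrank ℝ U + finrank ℝ (Submodule.span ℝ {one T}) :=
        Submodule.finrank_add_le_finrank_add_finrank _ _
      _ ≤ finrank ℝ U + 1 := by
        have := finrank_span_le_card (R := ℝ) ({one T} : Set (Y → ℝ))
        simp only [Set.toFinset_singleton, Finset.card_singleton] at this
        omega
  have h5 := LinearMap.finrank_range_add_finrank_ker ((mask B).domRestrict (W F S T))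
  have h6 : finrank ℝ (LinearMap.range ((mask B).domRestrict (W F S T))) = R F S B := by
    rw [LinearMap.range_domRestrict, W_map F S hB]
    rfl
  have h7 : finrank ℝ U ≤ finrank ℝ (LinearMap.ker ((mask B).domRestrict (W F S T))) := by
    let φ : U →ₗ[ℝ] LinearMap.ker ((mask B).domRestrict (W F S T)) :=
      LinearMap.codRestrict _ (Submodule.inclusion h2) (fun u => by
        rw [LinearMap.mem_ker, LinearMap.domRestrict_apply]
        exact h1 u.2)
    refine LinearMap.finrank_le_finrank_of_injective (f := φ) ?_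
    intro u u' h
    have h' : Submodule.inclusion h2 u = Submodule.inclusion h2 u' := congrArg Subtype.val h
    exact Submodule.inclusion_injective h2 h'
  have h8 : R F S T = finrank ℝ (W F S T) := rfl
  omega

theorem const_of_R (F : X → Y → Bool) (S : Finset X) (T : Finset Y) (h : R F S T ≤ 1)
    (x : X) (hx : x ∈ S) (y y' : Y) (hy : y ∈ T) (hy' : y' ∈ T) : F x y = F x y' := by
  have hne : one T ≠ 0 := by
    intro h0
    have := congrFun h0 y
    simp [one, hy] at this
  have hsub : Submodule.span ℝ {one T} ≤ W F S T := by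
    rw [Submodule.span_singleton_le_iff_mem]
    exact Submodule.subset_span (Set.mem_insert _ _)
  have heq : Submodule.span ℝ {one T} = W F S T := by
    refine Submodule.eq_of_le_of_finrank_le hsub ?_
    rw [finrank_span_singleton hne]
    exact h
  have hr : row F T x ∈ Submodule.span ℝ {one T} := by
    rw [heq]
    exact Submodule.subset_span (Set.mem_insert_of_mem _ ⟨x, by exact_mod_cast hx, rfl⟩)
  obtain ⟨c, hc⟩ := Submodule.mem_span_singleton.1 hr
  have h1 := congrFun hc y
  have h2 := congrFun hc y'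
  simp only [Pi.smul_apply, one, row, hy, hy', if_true, smul_eq_mul, mul_one] at h1 h2
  rw [h1] at h2
  cases h3 : F x y <;> cases h4 : F x y' <;> simp [h3, h4] at h2 ⊢

/-- there is a protocol with `c` bits which is correct on `S × T` -/
def PrOn (F : X → Y → Bool) (S : Finset X) (T : Finset Y) (c : ℕ) : Prop :=
  ∃ F' : X → Y → Bool, Proto F' c ∧ ∀ x ∈ S, ∀ y ∈ T, F' x y = F x y

def Chain (F : X → Y → Bool) (c K : ℕ) (S : Finset X) (T : Finset Y) : Prop :=
  ∃ (f : X → ℕ) (g : Y → ℕ), (∀ x, f x ≤ K) ∧ (∀ y, g y ≤ K) ∧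
    ∀ i j : ℕ, ∃ F' : X → Y → Bool, Proto F' c ∧
      ∀ x ∈ S, ∀ y ∈ T, f x = i → g y = j → F' x y = F x y

omit [DecidableEq Y] [Fintype Y] in
theorem Chain.mono {F : X → Y → Bool} {c K K' : ℕ} {S : Finset X} {T : Finset Y}
    (h : Chain F c K S T) (hK : K ≤ K') : Chain F c K' S T := by
  obtain ⟨f, g, h1, h2, h3⟩ := h
  exact ⟨f, g, fun x => (h1 x).trans hK, fun y => (h2 y).trans hK, h3⟩

omit [DecidableEq Y] [Fintype Y] in
theorem Chain.empty {F : X → Y → Bool} {c : ℕ} {S : Finset X} {T : Finset Y}
    (h : S = ∅ ∨ T = ∅) : Chain F c 0 S T := by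
  refine ⟨fun _ => 0, fun _ => 0, fun _ => le_rfl, fun _ => le_rfl, fun i j => ?_⟩
  refine ⟨fun _ _ => false, (Proto.const _ false fun _ _ => rfl).mono (Nat.zero_le _), ?_⟩
  intro x hx y hy
  rcases h with rfl | rfl
  · exact absurd hx (Finset.notMem_empty _)
  · exact absurd hy (Finset.notMem_empty _)

omit [Fintype Y] [DecidableEq Y] in
theorem Chain.rowStep [DecidableEq X] {F : X → Y → Bool} {c K : ℕ} {S A : Finset X}
    {T : Finset Y} (hA : PrOn F A T c) (h : Chain F c K (S \ A) T) : Chain F c (K + 1) S T := by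
  obtain ⟨f, g, h1, h2, h3⟩ := h
  obtain ⟨FA, hFA, hFA'⟩ := hA
  refine ⟨fun x => if x ∈ A then 0 else f x + 1, fun y => g y + 1, ?_, ?_, ?_⟩
  · intro x
    by_cases hx : x ∈ A
    · simp [hx]
    · simp [hx, h1 x]
  · intro y
    simp [h2 y]
  · intro i j
    rcases Nat.eq_zero_or_pos i with rfl | hi
    · refine ⟨FA, hFA, fun x hx y hy hf hg => ?_⟩
      by_cases hxA : x ∈ A
      · exact hFA' x hxA y hy
      · simp [hxA] at hf
    · obtain ⟨F', hF', h4⟩ := h3 (i - 1) (j - 1)
      refine ⟨F', hF', fun x hx y hy hf hg => ?_⟩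
      have hg' : g y + 1 = j := hg
      by_cases hxA : x ∈ A
      · simp only [hxA, if_true] at hf
        omega
      · simp only [hxA, if_false] at hf
        exact h4 x (mem_sdiff.2 ⟨hx, hxA⟩) y hy (by omega) (by omega)

omit [Fintype Y] in
theorem Chain.colStep {F : X → Y → Bool} {c K : ℕ} {S : Finset X}
    {T B : Finset Y} (hB : PrOn F S B c) (h : Chain F c K S (T \ B)) : Chain F c (K + 1) S T := by
  obtain ⟨f, g, h1, h2, h3⟩ := h
  obtain ⟨FB, hFB, hFB'⟩ := hB
  refine ⟨fun x => f x + 1, fun y => if y ∈ B then 0 else g y + 1, ?_, ?_, ?_⟩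
  · intro x
    simp [h1 x]
  · intro y
    by_cases hy : y ∈ B
    · simp [hy]
    · simp [hy, h2 y]
  · intro i j
    rcases Nat.eq_zero_or_pos j with rfl | hj
    · refine ⟨FB, hFB, fun x hx y hy hf hg => ?_⟩
      by_cases hyB : y ∈ B
      · exact hFB' x hx y hyB
      · simp [hyB] at hg
    · obtain ⟨F', hF', h4⟩ := h3 (i - 1) (j - 1)
      refine ⟨F', hF', fun x hx y hy hf hg => ?_⟩
      have hf' : f x + 1 = i := hf
      by_cases hyB : y ∈ B
      · simp only [hyB, if_true] at hg
        omega
      · simp only [hyB, if_false] at hg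
        exact h4 x hx y (mem_sdiff.2 ⟨hy, hyB⟩) (by omega) (by omega)

/-- the number of steps for `n` rows or columns -/
noncomputable def stp (m n : ℕ) : ℕ := if n = 0 then 0 else ⌊(m : ℝ) * Real.log n⌋₊ + 1

theorem stp_mono (m : ℕ) {n n' : ℕ} (h : n ≤ n') : stp m n ≤ stp m n' := by
  unfold stp
  by_cases h0 : n = 0
  · simp [h0]
  · have h1 : n' ≠ 0 := by omega
    simp only [h0, h1, if_false]
    have h2 : (0 : ℝ) < n := by exact_mod_cast Nat.pos_of_ne_zero h0
    have h3 : (n : ℝ) ≤ n' := by exact_mod_cast h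
    have h4 := Real.log_le_log h2 h3
    have h5 : (m : ℝ) * Real.log n ≤ m * Real.log n' :=
      mul_le_mul_of_nonneg_left h4 (Nat.cast_nonneg _)
    have := Nat.floor_le_floor h5
    omega

theorem stp_step (m n a : ℕ) (hn : 0 < n) (ha : a ≤ n) (hm : n ≤ m * a) :
    stp m (n - a) + 1 ≤ stp m n := by
  have ha0 : 0 < a := by
    rcases Nat.eq_zero_or_pos a with rfl | h
    · simp at hm; omega
    · exact h
  have hm0 : 0 < m := by
    rcases Nat.eq_zero_or_pos m with rfl | h
    · simp at hm; omega
    · exact h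
  unfold stp
  have hn' : n ≠ 0 := by omega
  simp only [hn', if_false]
  by_cases h0 : n - a = 0
  · simp [h0]
  · simp only [h0, if_false]
    have h1 : (0 : ℝ) < ((n - a : ℕ) : ℝ) := by exact_mod_cast Nat.pos_of_ne_zero h0
    have hnR : (0 : ℝ) < n := by exact_mod_cast hn
    have hmR : (0 : ℝ) < m := by exact_mod_cast hm0
    have h2 : ((n - a : ℕ) : ℝ) ≤ n * (1 - 1 / m) := by
      rw [Nat.cast_sub ha]
      have : (n : ℝ) ≤ m * a := by exact_mod_cast hm
      have h3 : (n : ℝ) / m ≤ a := by
        rw [div_le_iff₀ hmR]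
        linarith
      have h4 : (n : ℝ) * (1 - 1 / m) = n - n / m := by ring
      rw [h4]
      linarith
    have h3 : (0 : ℝ) < 1 - 1 / m := by
      have := h1.trans_le h2
      exact (pos_iff_pos_of_mul_pos this).1 hnR
    have h4 : Real.log ((n - a : ℕ) : ℝ) ≤ Real.log n - 1 / m := by
      calc Real.log ((n - a : ℕ) : ℝ) ≤ Real.log (n * (1 - 1 / m)) := Real.log_le_log h1 h2
        _ = Real.log n + Real.log (1 - 1 / m) := Real.log_mul hnR.ne' h3.ne'
        _ ≤ Real.log n - 1 / m := by
          have := Real.log_le_sub_one_of_pos h3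
          linarith
    have h5 : (m : ℝ) * Real.log ((n - a : ℕ) : ℝ) ≤ m * Real.log n - 1 := by
      have := mul_le_mul_of_nonneg_left h4 hmR.le
      have e : (m : ℝ) * (Real.log n - 1 / m) = m * Real.log n - 1 := by
        field_simp
      linarith
    have h6 : (0 : ℝ) ≤ (m : ℝ) * Real.log ((n - a : ℕ) : ℝ) := by
      refine mul_nonneg hmR.le (Real.log_nonneg ?_)
      have : 1 ≤ n - a := Nat.pos_of_ne_zero h0
      exact_mod_cast this
    have h7 : ⌊(m : ℝ) * Real.log ((n - a : ℕ) : ℝ)⌋₊ + 1 ≤ ⌊(m : ℝ) * Real.log n⌋₊ := by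
      have h8 : 1 ≤ (m : ℝ) * Real.log n := by linarith
      rw [Nat.le_floor_iff (by linarith)]
      have := Nat.floor_le h6
      push_cast
      linarith
    omega

theorem chain_of (F : X → Y → Bool) (m c k N N' : ℕ) (hR : RectProp F m)
    (ih : ∀ (S : Finset X) (T : Finset Y), S.card ≤ N → T.card ≤ N' → R F S T ≤ 2 ^ k →
      PrOn F S T c) :
    ∀ (n : ℕ) (S : Finset X) (T : Finset Y), S.card + T.card ≤ n → S.card ≤ N → T.card ≤ N' →
      R F S T ≤ 2 ^ (k + 1) → Chain F c (stp m S.card + stp m T.card) S T := by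
  classical
  intro n
  induction n with
  | zero =>
    intro S T h _ _ _
    have : S = ∅ := by
      rw [← Finset.card_eq_zero]
      omega
    exact (Chain.empty (Or.inl this)).mono (Nat.zero_le _)
  | succ n IH =>
    intro S T h hSN hTN hr
    rcases S.eq_empty_or_nonempty with rfl | hS
    · exact (Chain.empty (Or.inl rfl)).mono (Nat.zero_le _)
    rcases T.eq_empty_or_nonempty with rfl | hT
    · exact (Chain.empty (Or.inr rfl)).mono (Nat.zero_le _)
    obtain ⟨A, hA, B, hB, h1, h2, v, hv⟩ := hR S T hS hT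
    have hadd := R_add F hA hB v hv
    have hSp := hS.card_pos
    have hTp := hT.card_pos
    have hAc := card_le_card hA
    have hBc := card_le_card hB
    have hpow : 2 ^ (k + 1) = 2 * 2 ^ k := by ring
    by_cases hlt : R F A T ≤ 2 ^ k
    · have hAT := ih A T (hAc.trans hSN) hTN hlt
      have hA0 : 0 < A.card := by
        rcases Nat.eq_zero_or_pos A.card with h0 | h0
        · rw [h0] at h1; omega
        · exact h0
      have hcard : (S \ A).card = S.card - A.card := card_sdiff_of_subset hA
      have hrec := IH (S \ A) T (by rw [hcard]; omega) (by rw [hcard]; omega) hTN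
        ((R_mono F sdiff_subset (Finset.Subset.refl T)).trans hr)
      refine (Chain.rowStep hAT hrec).mono ?_
      have := stp_step m S.card A.card hSp hAc h1
      rw [hcard]
      omega
    · have hSB := ih S B hSN (hBc.trans hTN) (by omega)
      have hB0 : 0 < B.card := by
        rcases Nat.eq_zero_or_pos B.card with h0 | h0
        · rw [h0] at h2; omega
        · exact h0
      have hcard : (T \ B).card = T.card - B.card := card_sdiff_of_subset hB
      have hrec := IH S (T \ B) (by rw [hcard]; omega) hSN (by rw [hcard]; omega)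
        ((R_mono F (Finset.Subset.refl S) sdiff_subset).trans hr)
      refine (Chain.colStep hSB hrec).mono ?_
      have := stp_step m T.card B.card hTp hBc h2
      rw [hcard]
      omega

omit [DecidableEq Y] [Fintype Y] in
theorem Chain.prOn {F : X → Y → Bool} {c K L : ℕ} {S : Finset X} {T : Finset Y}
    (h : Chain F c K S T) (hL : K + 1 ≤ 2 ^ L) : PrOn F S T (c + 2 * L) := by
  obtain ⟨f, g, h1, h2, h3⟩ := h
  choose F' hF' hc using h3
  refine ⟨fun x y => F' (f x) (g y) x y, ?_, fun x hx y hy => hc _ _ x hx y hy rfl rfl⟩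
  have e : c + 2 * L = (c + L) + L := by ring
  rw [e]
  refine Proto.sendX _ (fun x => (⟨f x, Nat.lt_succ_of_le (h1 x)⟩ : Fin (K + 1))) L
    (by rwa [Fintype.card_fin]) (fun q x y => F' q (g y) x y) (c + L) (fun q => ?_)
    (fun x y => rfl)
  refine Proto.sendY _ (fun y => (⟨g y, Nat.lt_succ_of_le (h2 y)⟩ : Fin (K + 1))) L
    (by rwa [Fintype.card_fin]) (fun q' x y => F' q q' x y) c (fun q' => hF' _ _)
    (fun x y => rfl)

theorem main_rec (F : X → Y → Bool) (m N N' L : ℕ) (hR : RectProp F m)
    (hL : stp m N + stp m N' + 1 ≤ 2 ^ L) (k : ℕ) :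
    ∀ (S : Finset X) (T : Finset Y), S.card ≤ N → T.card ≤ N' → R F S T ≤ 2 ^ k →
      PrOn F S T (1 + 2 * L * k) := by
  classical
  induction k with
  | zero =>
    intro S T _ _ hr
    rw [pow_zero] at hr
    rcases T.eq_empty_or_nonempty with rfl | ⟨y0, hy0⟩
    · refine ⟨fun _ _ => false, (Proto.const _ false fun _ _ => rfl).mono (Nat.zero_le _), ?_⟩
      intro x _ y hy
      exact absurd hy (Finset.notMem_empty _)
    · refine ⟨fun x _ => F x y0, ?_, fun x hx y hy => const_of_R F S T hr x hx y0 y hy0 hy⟩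
      have h := Proto.alice (fun (x : X) (_ : Y) => F x y0) (fun x => F x y0)
        (fun v _ _ => v) 0 (fun v => Proto.const _ v fun _ _ => rfl) (fun _ _ => rfl)
      exact h.mono (by omega)
  | succ k ih =>
    intro S T hS hT hr
    have h1 := chain_of F m (1 + 2 * L * k) k N N' hR ih _ S T le_rfl hS hT hr
    have h2 : stp m S.card + stp m T.card + 1 ≤ 2 ^ L := by
      have := stp_mono m hS
      have := stp_mono m hT
      omega
    have h3 := h1.prOn h2
    have e : 1 + 2 * L * (k + 1) = 1 + 2 * L * k + 2 * L := by ring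
    rw [e]
    exact h3

end Pool.Agent.Q274.LR
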