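import Pool.Agent.Q274.LR.NW
import Pool.Agent.Y422.TW.Defs

/-!
# Bounded twin-width: large monochromatic rectangles
-/

set_option autoImplicit false

namespace Pool.Agent.Q274.LR

open Finset Pool.Agent.Y422.TW

variable {V X Y : Type}

open Classical in
/-- a part with many rows, all other parts having few columns -/
theorem rect_key (G : SimpleGraph V) (w : ℕ) (f : X → V) (g : Y → V) (F : X → Y → Bool)
    (hF : ∀ x y, F x y = true ↔ G.Adj (f x) (g y)) (S : Finset X) (T : Finset Y)
    (hT : T.Nonempty)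
    (Q : Finset (Finset V)) (hcov : ∀ v, ∃ A ∈ Q, v ∈ A)
    (hgood : ∀ A ∈ Q, (Q.filter (fun B => B ≠ A ∧ ¬ Homog G A B)).card ≤ w)
    (hsmall : ∀ A ∈ Q, 2 * (w + 2) * (T.filter (fun y => g y ∈ A)).card ≤ 2 * T.card)
    (P : Finset V) (hP : P ∈ Q)
    (hbig : S.card ≤ 2 * (w + 2) * (S.filter (fun x => f x ∈ P)).card) :
    ∃ A ⊆ S, ∃ B ⊆ T, S.card ≤ 2 * (w + 2) * A.card ∧ T.card ≤ 2 * (w + 2) * B.card ∧
      ∃ v, ∀ a ∈ A, ∀ b ∈ B, F a b = v := by
  set Red := Q.filter (fun B => B ≠ P ∧ ¬ Homog G P B) with hRed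
  set R1 := T.filter (fun y => ∀ p ∈ P, G.Adj p (g y)) with hR1
  set R0 := T.filter (fun y => ∀ p ∈ P, ¬ G.Adj p (g y)) with hR0
  have hsub : T ⊆ (R1 ∪ R0) ∪ (insert P Red).biUnion (fun Z => T.filter (fun y => g y ∈ Z)) := by
    intro y hy
    obtain ⟨Z, hZ, hyZ⟩ := hcov (g y)
    by_cases hZP : Z = P
    · refine mem_union_right _ (mem_biUnion.2 ⟨P, mem_insert_self _ _, mem_filter.2 ⟨hy, ?_⟩⟩)
      rw [← hZP]
      exact hyZ
    · by_cases hh : Homog G P Z
      · rcases hh with hh | hh
        · exact mem_union_left _ (mem_union_left _ (mem_filter.2 ⟨hy, fun p hp => hh p hp _ hyZ⟩))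
        · exact mem_union_left _ (mem_union_right _ (mem_filter.2 ⟨hy, fun p hp => hh p hp _ hyZ⟩))
      · exact mem_union_right _ (mem_biUnion.2 ⟨Z, mem_insert_of_mem (mem_filter.2 ⟨hZ, hZP, hh⟩),
          mem_filter.2 ⟨hy, hyZ⟩⟩)
  have h1 : T.card ≤ (R1.card + R0.card) +
      ∑ Z ∈ insert P Red, (T.filter (fun y => g y ∈ Z)).card :=
    calc T.card ≤ _ := card_le_card hsub
      _ ≤ (R1 ∪ R0).card + _ := card_union_le _ _
      _ ≤ _ := add_le_add (card_union_le _ _) card_biUnion_le
  have h2 : 2 * (w + 2) * ∑ Z ∈ insert P Red, (T.filter (fun y => g y ∈ Z)).card ≤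
      (w + 1) * (2 * T.card) := by
    rw [mul_sum]
    calc ∑ Z ∈ insert P Red, 2 * (w + 2) * (T.filter (fun y => g y ∈ Z)).card
        ≤ (insert P Red).card • (2 * T.card) := by
          refine sum_le_card_nsmul _ _ _ ?_
          intro Z hZ
          rcases mem_insert.1 hZ with rfl | hZ
          · exact hsmall _ hP
          · exact hsmall _ (mem_filter.1 hZ).1
      _ ≤ (w + 1) * (2 * T.card) := by
          rw [smul_eq_mul]
          exact Nat.mul_le_mul_right _ ((card_insert_le _ _).trans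
            (Nat.add_le_add_right (hgood P hP) 1))
  have h3 : 2 * T.card ≤ 2 * (w + 2) * (R1.card + R0.card) := by
    have h4 := Nat.mul_le_mul_left (2 * (w + 2)) h1
    rw [Nat.mul_add (2 * (w + 2))] at h4
    have e : 2 * (w + 2) * T.card = (w + 1) * (2 * T.card) + 2 * T.card := by ring
    omega
  rw [Nat.mul_add (2 * (w + 2))] at h3
  refine ⟨S.filter (fun x => f x ∈ P), filter_subset _ _, ?_⟩
  rcases Nat.lt_or_ge (2 * (w + 2) * R1.card) T.card with h5 | h5
  · refine ⟨R0, filter_subset _ _, hbig, by omega, false, ?_⟩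
    intro a ha b hb
    have h6 := (mem_filter.1 hb).2 (f a) (mem_filter.1 ha).2
    rw [← hF] at h6
    simpa using h6
  · refine ⟨R1, filter_subset _ _, hbig, h5, true, ?_⟩
    intro a ha b hb
    have h6 := (mem_filter.1 hb).2 (f a) (mem_filter.1 ha).2
    rwa [← hF] at h6

open Classical in
/-- one vertex with many rows -/
theorem rect_single (G : SimpleGraph V) (w : ℕ) (f : X → V) (g : Y → V) (F : X → Y → Bool)
    (hF : ∀ x y, F x y = true ↔ G.Adj (f x) (g y)) (S : Finset X) (T : Finset Y) (p : V)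
    (hbig : S.card ≤ 2 * (w + 2) * (S.filter (fun x => f x ∈ ({p} : Finset V))).card) :
    ∃ A ⊆ S, ∃ B ⊆ T, S.card ≤ 2 * (w + 2) * A.card ∧ T.card ≤ 2 * (w + 2) * B.card ∧
      ∃ v, ∀ a ∈ A, ∀ b ∈ B, F a b = v := by
  set R1 := T.filter (fun y => G.Adj p (g y)) with hR1
  set R0 := T.filter (fun y => ¬ G.Adj p (g y)) with hR0
  have h1 : R1.card + R0.card = T.card := card_filter_add_card_filter_not _
  have h2 : ∀ n : ℕ, 2 * (w + 2) * n = 2 * n + 2 * (w + 1) * n := fun n => by ring
  refine ⟨S.filter (fun x => f x ∈ ({p} : Finset V)), filter_subset _ _, ?_⟩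
  rcases Nat.lt_or_ge (2 * R1.card) T.card with h5 | h5
  · refine ⟨R0, filter_subset _ _, hbig, by rw [h2]; omega, false, ?_⟩
    intro a ha b hb
    have h6 := (mem_filter.1 hb).2
    have h7 := mem_singleton.1 (mem_filter.1 ha).2
    rw [← h7, ← hF] at h6
    simpa using h6
  · refine ⟨R1, filter_subset _ _, hbig, by rw [h2]; omega, true, ?_⟩
    intro a ha b hb
    have h6 := (mem_filter.1 hb).2
    have h7 := mem_singleton.1 (mem_filter.1 ha).2
    rwa [← h7, ← hF] at h6

theorem rect_of_tww [Fintype V] (G : SimpleGraph V) (w : ℕ) (hw : TwinWidthLE G w)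
    (f : X → V) (g : Y → V) (F : X → Y → Bool)
    (hF : ∀ x y, F x y = true ↔ G.Adj (f x) (g y)) : RectProp F (2 * (w + 2)) := by
  classical
  intro S T hS hT
  by_contra hno
  have hF' : ∀ y x, (fun y x => F x y) y x = true ↔ G.Adj (g y) (f x) := by
    intro y x
    rw [hF, G.adj_comm]
  have hno' : ¬ ∃ A ⊆ T, ∃ B ⊆ S, T.card ≤ 2 * (w + 2) * A.card ∧ S.card ≤ 2 * (w + 2) * B.card ∧
      ∃ v, ∀ a ∈ A, ∀ b ∈ B, (fun y x => F x y) a b = v := by
    rintro ⟨A, hA, B, hB, h1, h2, v, hv⟩
    exact hno ⟨B, hB, A, hA, h2, h1, v, fun b hb a ha => hv a ha b hb⟩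
  have key : ∀ Q, Relation.ReflTransGen (Contract G w) (Finset.univ.image (fun v => {v})) Q →
      (∀ v, ∃ A ∈ Q, v ∈ A) ∧
      (∀ A ∈ Q, 2 * (w + 2) * (S.filter (fun x => f x ∈ A)).card < S.card) ∧
      (∀ A ∈ Q, 2 * (w + 2) * (T.filter (fun y => g y ∈ A)).card < T.card) := by
    intro Q hQ
    induction hQ with
    | refl =>
      refine ⟨fun v => ⟨{v}, mem_image.2 ⟨v, mem_univ _, rfl⟩, mem_singleton_self v⟩, ?_, ?_⟩
      · intro A hA
        obtain ⟨a, -, rfl⟩ := mem_image.1 hA
        by_contra hcon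
        exact hno (rect_single G w f g F hF S T a (by omega))
      · intro A hA
        obtain ⟨a, -, rfl⟩ := mem_image.1 hA
        by_contra hcon
        exact hno' (rect_single G w g f _ hF' T S a (by omega))
    | @tail P' Q' _ hstep ih =>
      obtain ⟨ihc, ihs, iht⟩ := ih
      obtain ⟨⟨A, hA, B, hB, hAB, rfl⟩, hgood⟩ := hstep
      have hc : ∀ v : V, ∃ X ∈ insert (A ∪ B) ((P'.erase A).erase B), v ∈ X := by
        intro v
        obtain ⟨X, hX, hv⟩ := ihc v
        by_cases h1 : X = A
        · exact ⟨A ∪ B, mem_insert_self _ _, mem_union_left _ (h1 ▸ hv)⟩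
        · by_cases h2 : X = B
          · exact ⟨A ∪ B, mem_insert_self _ _, mem_union_right _ (h2 ▸ hv)⟩
          · exact ⟨X, mem_insert_of_mem (mem_erase.2 ⟨h2, mem_erase.2 ⟨h1, hX⟩⟩), hv⟩
      have hsm : ∀ Z ∈ insert (A ∪ B) ((P'.erase A).erase B),
          2 * (w + 2) * (S.filter (fun x => f x ∈ Z)).card ≤ 2 * S.card := by
        intro Z hZ
        rcases mem_insert.1 hZ with rfl | hZ
        · have h1 : (S.filter (fun x => f x ∈ A ∪ B)).card ≤
              (S.filter (fun x => f x ∈ A)).card + (S.filter (fun x => f x ∈ B)).card := by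
            refine (card_le_card ?_).trans (card_union_le _ _)
            intro x hx
            obtain ⟨h2, h3⟩ := mem_filter.1 hx
            rcases mem_union.1 h3 with h4 | h4
            · exact mem_union_left _ (mem_filter.2 ⟨h2, h4⟩)
            · exact mem_union_right _ (mem_filter.2 ⟨h2, h4⟩)
          have h2 := Nat.mul_le_mul_left (2 * (w + 2)) h1
          rw [Nat.mul_add (2 * (w + 2))] at h2
          have := ihs A hA
          have := ihs B hB
          omega
        · have := ihs Z (mem_of_mem_erase (mem_of_mem_erase hZ))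
          omega
      have htm : ∀ Z ∈ insert (A ∪ B) ((P'.erase A).erase B),
          2 * (w + 2) * (T.filter (fun y => g y ∈ Z)).card ≤ 2 * T.card := by
        intro Z hZ
        rcases mem_insert.1 hZ with rfl | hZ
        · have h1 : (T.filter (fun x => g x ∈ A ∪ B)).card ≤
              (T.filter (fun x => g x ∈ A)).card + (T.filter (fun x => g x ∈ B)).card := by
            refine (card_le_card ?_).trans (card_union_le _ _)
            intro x hx
            obtain ⟨h2, h3⟩ := mem_filter.1 hx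
            rcases mem_union.1 h3 with h4 | h4
            · exact mem_union_left _ (mem_filter.2 ⟨h2, h4⟩)
            · exact mem_union_right _ (mem_filter.2 ⟨h2, h4⟩)
          have h2 := Nat.mul_le_mul_left (2 * (w + 2)) h1
          rw [Nat.mul_add (2 * (w + 2))] at h2
          have := iht A hA
          have := iht B hB
          omega
        · have := iht Z (mem_of_mem_erase (mem_of_mem_erase hZ))
          omega
      refine ⟨hc, ?_, ?_⟩
      · intro Z hZ
        by_contra hcon
        exact hno (rect_key G w f g F hF S T hT _ hc hgood htm Z hZ (by omega))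
      · intro Z hZ
        by_contra hcon
        exact hno' (rect_key G w g f _ hF' T S hS _ hc hgood hsm Z hZ (by omega))
  have h1 := (key _ hw).2.1 Finset.univ (mem_singleton_self _)
  have h2 : (S.filter (fun x => f x ∈ (univ : Finset V))) = S := by
    refine filter_true_of_mem ?_
    intro x _
    exact mem_univ _
  rw [h2] at h1
  have h3 : 2 * (w + 2) * S.card = S.card + (2 * w + 3) * S.card := by ring
  omega

end Pool.Agent.Q274.LR
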